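import Mathlib
import Pool.Agent.Lib.MP_f6ebb1_gt.Levels

open Filter Set Topology Cardinal
open Pool.Agent.MPf6ebb1

universe u

namespace Pool.Agent.Results.MP_f6ebb1_gt.KCExample

/-- First part: there is (in ZFC) a Lindelöf space of cardinality larger than the continuum all
of whose points are `G_δ`; moreover all its countable subsets are closed and all its compact
subsets are finite. Second part: a set carries no free countably complete ultrafilter if and only
if it is the set of isolated points, dense, of a scattered space with these properties. -/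
theorem result :
    (∃ (X : Type) (_ : TopologicalSpace X), LindelofSpace X ∧ (∀ x : X, IsGδ ({x} : Set X)) ∧
      (∀ C : Set X, C.Countable → IsClosed C) ∧ (∀ K : Set X, IsCompact K → K.Finite) ∧
      𝔠 < #X) ∧
    ∀ D : Type u,
      (∀ U : Ultrafilter D, CountableInterFilter (U : Filter D) → ∃ d : D, U = pure d) ↔
      ∃ (X : Type u) (_ : TopologicalSpace X), LindelofSpace X ∧
        (∀ x : X, IsGδ ({x} : Set X)) ∧
        (∀ C : Set X, C.Countable → IsClosed C) ∧ (∀ K : Set X, IsCompact K → K.Finite) ∧
        (∀ S : Set X, S.Nonempty → ∃ x ∈ S, ∃ O : Set X, IsOpen O ∧ O ∩ S = {x}) ∧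
        ∃ e : D → X, Function.Injective e ∧ Set.range e = {x | IsOpen ({x} : Set X)} ∧
          Dense (Set.range e) := by
  have main : ∀ {D : Type u}, NM D →
      ∃ (X : Type u) (_ : TopologicalSpace X), LindelofSpace X ∧
        (∀ x : X, IsGδ ({x} : Set X)) ∧
        (∀ C : Set X, C.Countable → IsClosed C) ∧ (∀ K : Set X, IsCompact K → K.Finite) ∧
        (∀ S : Set X, S.Nonempty → ∃ x ∈ S, ∃ O : Set X, IsOpen O ∧ O ∩ S = {x}) ∧
        ∃ e : D → X, Function.Injective e ∧ Set.range e = {x | IsOpen ({x} : Set X)} ∧
          Dense (Set.range e) := by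
    intro D hD
    refine ⟨X D, topX D, lindelof hD, isGδ_singleton, isClosed_of_countable,
      finite_of_isCompact isClosed_of_countable, scattered, inc 0, inc_injective 0, ?_,
      dense_zero⟩
    ext z
    constructor
    · rintro ⟨x, rfl⟩
      have h : IsOpen (inc (D := D) 0 '' ({x} : Set (Y D 0))) := isOpen_zero _
      have h2 : inc (D := D) 0 '' ({x} : Set (Y D 0)) = {inc 0 x} := Set.image_singleton
      rw [h2] at h
      exact h
    · rintro hz
      obtain ⟨y, hy1, hy2⟩ := (dense_zero (D := D)).inter_open_nonempty {z} hz ⟨z, rfl⟩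
      have : y = z := hy1
      rw [← this]
      exact hy2
  refine ⟨?_, ?_⟩
  · have hNM : NM (Set (Set ℕ)) := (NM.of_countable (α := ℕ)).set.set
    refine ⟨X (Set (Set ℕ)), topX _, lindelof hNM, isGδ_singleton, isClosed_of_countable,
      finite_of_isCompact isClosed_of_countable, ?_⟩
    have h1 : #(Set (Set ℕ)) ≤ #(X (Set (Set ℕ))) :=
      Cardinal.mk_le_of_injective (inc_injective (D := Set (Set ℕ)) 0)
    refine lt_of_lt_of_le ?_ h1
    rw [Cardinal.mk_set, Cardinal.mk_set, Cardinal.mk_nat, Cardinal.two_power_aleph0]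
    exact Cardinal.cantor _
  · intro D
    constructor
    · intro hD
      exact main hD
    · rintro ⟨X, _, hL, hG, -, -, -, e, he, -, -⟩
      exact (nm_of_lindelof hG).of_injective e he

end Pool.Agent.Results.MP_f6ebb1_gt.KCExample
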